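import Pool.Agent.Lib.MP_ab8df0_nt.A.Twr

/-! Square classes with even valuation outside 6. -/

namespace Pool.Agent.Lib.MP_ab8df0_nt.A.M3

open Pool.Agent.Lib.MP_ab8df0_nt.A

/-- Lower coefficients of the polynomial. -/
def fl : List ℤ := [-3, 0, 0, 0, 0, 0]

/-- The modulus. -/
def m : ℕ := nat_lit 0x175a2726872cb1f31ebc8f7f4382068d

/-- The roots modulo the modulus. -/
def ρ : List ℕ := [nat_lit 0xc7e015d4ee032d868d00a82a040b5c5, nat_lit 0x10b8f3e1f8653de3fd83f0e356117522, nat_lit 0x117d590dc713f329d725239890b1e233, nat_lit 0x6a133448ec7740f21389e9bed70916b, nat_lit 0x5dcce18c018bec947976be6b2d0245a, nat_lit 0xadc25c9384c7f1ab5ec84fca34150c8]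

theorem a0 : CovA fl 6 107 m 2 ρ 0 (0 + 60) := covA _ _ _ _ _ _ _ _
  [(0, []),
  (0, [⟨[2, 2], 1, 2, [1, 4], [1, -1, 0, 1]⟩, ⟨[2, 3], 1, 2, [4, 4], [-1, -1, 0, 1]⟩, ⟨[2, 0], 1, 2, [0, 1], [1, 0, 0, 0, 1]⟩]),
  (0, [⟨[3, 0, 0, 0, 0, 0], 1, 3, [0, 0, 0, 0, 6], []⟩]),
  (0, [⟨[3], 1, 1, [1], [-1, 1, 1]⟩, ⟨[8], 1, 1, [1], [-1, -1, 1]⟩, ⟨[2, 8], 1, 2, [5, 7], []⟩, ⟨[2, 3], 1, 2, [6, 7], []⟩]),
  (0, [⟨[9, 0, 0], 1, 2, [0, 0, 2], []⟩, ⟨[4, 0, 0], 1, 2, [0, 0, 11], []⟩]),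
  (0, [⟨[7, 9], 1, 2, [11, 7], []⟩, ⟨[7, 0], 1, 2, [0, 6], []⟩, ⟨[7, 8], 1, 2, [6, 7], []⟩]),
  (0, [⟨[3, 0, 0, 0, 0, 0], 1, 2, [0, 0, 0, 0, 0, 10], []⟩]),
  (0, [⟨[9], 1, 1, [1], [2, 1, 1]⟩, ⟨[14], 1, 1, [1], [2, -1, 1]⟩, ⟨[11, 9], 1, 2, [17, 9], []⟩, ⟨[11, 14], 1, 2, [6, 9], []⟩]),
  (5, []),
  (0, [⟨[18, 27], 1, 2, [16, 16], []⟩, ⟨[18, 0], 1, 2, [0, 4], []⟩, ⟨[18, 2], 1, 2, [13, 16], []⟩]),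
  (0, [⟨[3, 0, 0, 0, 0, 0], 1, 2, [0, 0, 0, 0, 0, 12], []⟩]),
  (5, []),
  (0, [⟨[15, 0, 0], 1, 2, [0, 0, 15], []⟩, ⟨[22, 0, 0], 1, 2, [0, 0, 22], []⟩]),
  (0, [⟨[27, 0], 1, 2, [0, 22], []⟩, ⟨[27, 40], 1, 2, [3, 6], []⟩, ⟨[27, 1], 1, 2, [38, 6], []⟩]),
  (0, [⟨[3, 0, 0, 0, 0, 0], 1, 2, [0, 0, 0, 0, 0, 2], []⟩]),
  (0, [⟨[13], 1, 1, [1], [-1, 1, 0, 1]⟩, ⟨[34], 1, 1, [1], [1, 1, 0, 1]⟩, ⟨[19, 34], 1, 2, [41, 28], []⟩, ⟨[19, 13], 1, 2, [6, 28], []⟩]),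
  (7, []),
  (0, [⟨[33, 22], 1, 2, [36, 16], []⟩, ⟨[33, 0], 1, 2, [0, 4], []⟩, ⟨[33, 31], 1, 2, [17, 16], []⟩]),
  (5, []),
  (0, [⟨[52], 1, 1, [1], [-1, 0, 1, 1]⟩, ⟨[7], 1, 1, [1], [1, 0, -1, 1]⟩, ⟨[10, 52], 1, 2, [45, 55], []⟩, ⟨[10, 7], 1, 2, [14, 55], []⟩])] (by decide +kernel)

theorem a1 : CovA fl 6 107 m 2 ρ 60 (60 + 48) := covA _ _ _ _ _ _ _ _
  [(0, [⟨[59], 1, 1, [1], [2, 1]⟩, ⟨[35], 1, 1, [1], [1, 1, 0, 0, 1]⟩, ⟨[26], 1, 1, [1], [1, -1, 0, 0, 1]⟩, ⟨[28], 1, 1, [1], [-1, 0, -1, 1]⟩, ⟨[33], 1, 1, [1], [1, 0, 1, 1]⟩, ⟨[2], 1, 1, [1], [-2, 1]⟩]),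
  (5, []),
  (0, [⟨[53, 0], 1, 2, [0, 12], []⟩, ⟨[18, 0], 1, 2, [0, 13], []⟩, ⟨[63, 0], 1, 2, [0, 42], []⟩]),
  (0, [⟨[52], 1, 1, [1], [1, 0, 1, 1, 1]⟩, ⟨[19], 1, 1, [1], [1, 0, 1, -1, 1]⟩, ⟨[65, 52], 1, 2, [5, 8], []⟩, ⟨[65, 19], 1, 2, [66, 8], []⟩]),
  (0, [⟨[33], 1, 1, [1], [-1, -2, 1]⟩, ⟨[28], 1, 1, [1], [2, 0, -1, 1]⟩, ⟨[40], 1, 1, [1], [-1, 2, 1]⟩, ⟨[5], 1, 1, [1], [1, -1, 1, 1]⟩, ⟨[45], 1, 1, [1], [-2, 0, 1, 1]⟩, ⟨[68], 1, 1, [1], [-1, -1, -1, 1]⟩]),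
  (7, []),
  (0, [⟨[3, 0, 0, 0, 0, 0], 1, 2, [0, 0, 0, 0, 0, 71], []⟩]),
  (0, [⟨[54], 1, 1, [1], [-2, 0, -1, 1]⟩, ⟨[29], 1, 1, [1], [2, 0, 1, 1]⟩, ⟨[72, 54], 1, 2, [21, 73], []⟩, ⟨[72, 29], 1, 2, [62, 73], []⟩]),
  (5, []),
  (0, [⟨[29, 64], 1, 2, [82, 3], []⟩, ⟨[29, 25], 1, 2, [7, 3], []⟩, ⟨[29, 0], 1, 2, [0, 23], []⟩]),
  (7, []),
  (5, []),
  (0, [⟨[87, 0, 0], 1, 2, [0, 0, 70], []⟩, ⟨[10, 0, 0], 1, 2, [0, 0, 27], []⟩]),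
  (0, [⟨[53, 0], 1, 2, [0, 20], []⟩, ⟨[53, 89], 1, 2, [76, 80], []⟩, ⟨[53, 12], 1, 2, [25, 80], []⟩]),
  (0, [⟨[44, 0], 1, 2, [0, 55], []⟩, ⟨[95, 0], 1, 2, [0, 58], []⟩, ⟨[67, 0], 1, 2, [0, 93], []⟩]),
  (0, [⟨[102], 1, 1, [1], [-1, 0, 0, -1, 1]⟩, ⟨[5], 1, 1, [1], [-1, 0, 0, 1, 1]⟩, ⟨[82, 5], 1, 2, [57, 20], []⟩, ⟨[82, 102], 1, 2, [50, 20], []⟩])] (by decide +kernel)

theorem ra {F : Type*} [Field F] [NumberField F] {α : NumberField.RingOfIntegers F} (h : Gen α fl) :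
    Range F 6 107 0 108 :=
  have hs : splitOK fl m 2 ρ = true := by decide +kernel
  (a0.range h hs).trans (a1.range h hs)

open NumberField IsDedekindDomain

variable {F : Type*} [Field F] [NumberField F] {α : 𝓞 F}

theorem c2 (h : Gen α fl) : Cnt F 2 2 :=
  h.cnt (m := m) (r := 2) (ρ := ρ) Nat.prime_two (l := [(⟨[1], 2, 1, [1], [1, 1]⟩, 1), (⟨[1, 1], 2, 2, [1], [1, 1, 1]⟩, 1)]) (by decide +kernel)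

theorem c3 (h : Gen α fl) : Cnt F 3 1 :=
  h.cnt (m := m) (r := 2) (ρ := ρ) Nat.prime_three (l := [(⟨[0], 6, 1, [1], [0, 1]⟩, 1)]) (by decide +kernel)

/-- The generators. -/
def g : Fin 7 → List ℤ := ![[-1],
  [0, 1],
  [2],
  [1, 1],
  [-1, 1],
  [1, 0, 1],
  [-1, 0, 0, 1]]

theorem SU (h : Gen α fl) {ξ : F} (h0 : ξ ≠ 0)
    (hξ : ∀ v : HeightOneSpectrum (𝓞 F), ((6 : ℕ) : 𝓞 F) ∉ v.asIdeal →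
      ∃ k : ℤ, v.valuation F ξ = WithZero.exp (2 * k)) :
    ∃ (e : Fin 7 → Bool) (u : F), ξ = (∏ i, if e i then ev (α : F) (g i) else 1) * u ^ 2 :=
  h.SU (M := 107) (m := m) (r := 2) (ρ := ρ) (D := 11337408) (dF := 11337408)
    (bs := [([1], 1, [1, -6, 15, -20, 15, -6]), ([0, 1], 1, [-3, 0, 0, 0, 0, 0]), ([0, 0, 1], 1, [9, 0, 0, -6, 0, 0]), ([0, 0, 0, 1], 1, [-27, 0, 27, 0, -9, 0]), ([0, 0, 0, 0, 1], 1, [81, 0, 0, -18, 0, 0]), ([0, 0, 0, 0, 0, 1], 1, [-243, 0, 0, 0, 0, 0])])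
    (K := 10000000000000000000000000000000000000000) (E := 6004684775880013633377326936747714231492) (zs := [⟨6004684775880013633377326936747714231492, 10400419115259520572650284121789426931689⟩, ⟨6004684775880013633377326936747714231492, -10400419115259520572650284121789426931689⟩, ⟨-6004684775880013633377326936747714231492, 10400419115259520572650284121789426931689⟩, ⟨-6004684775880013633377326936747714231492, -10400419115259520572650284121789426931689⟩]) (T := 59)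
    (c := ![(239, 17), (1609, 1535), (1597, 1183), (1321, 338), (1321, 983), (1321, 1311), (3529, 3518)]) (by decide +kernel)
    ((c2 h).mul (c3 h)) (ra h) h0 hξ

instance : Fact (Irreducible (mq fl)) :=
  ⟨irr_of_eis Nat.prime_three (by decide +kernel)⟩

theorem re0 (h : Gen α fl) : ∃ φ : F →+* ℝ, ((-1200936955176002726675465387350 : ℤ) : ℝ) / ((10 ^ 30 : ℕ) : ℝ) < φ α ∧
    φ α < ((-1200936955176002726675465387349 : ℤ) : ℝ) / ((10 ^ 30 : ℕ) : ℝ) := h.real (by decide +kernel)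

theorem re1 (h : Gen α fl) : ∃ φ : F →+* ℝ, ((1200936955176002726675465387349 : ℤ) : ℝ) / ((10 ^ 30 : ℕ) : ℝ) < φ α ∧
    φ α < ((1200936955176002726675465387350 : ℤ) : ℝ) / ((10 ^ 30 : ℕ) : ℝ) := h.real (by decide +kernel)


end Pool.Agent.Lib.MP_ab8df0_nt.A.M3
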